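import Mathlib

/-!
# Representative perfect matchings of vector-labelled complete bipartite graphs

The answer to the question is negative.  The vertices of `K_{n,n}` are two copies of `Fin n`, its edges are
the pairs `(i, j)`.  For every `k ≥ 1` and every even `n ≥ k` the labelling which gives to the edge `(i, j)`
the label `e_i` or `- e_i` (according to whether `j` lies in the first or in the second half) if `i < k`,
and the label `0` if `i ≥ k`, has the property that the error of every perfect matching is exactly `k`.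
-/

set_option autoImplicit false

namespace Pool.Agent.Results.MP_26893d_co.LinearError

open Finset

/-- The error `f_h(G')` (in the `ℓ₁`-norm of `ℝ^k`) of the subgraph of `K_{n,n}` with the set of edges `M`;
`h` is the labelling of the edges of `K_{n,n}`. -/
noncomputable def err {n k : ℕ} (h : Fin n × Fin n → Fin k → ℝ) (M : Finset (Fin n × Fin n)) : ℝ :=
  ∑ l, |∑ e ∈ M, h e l - (M.card : ℝ) / (n ^ 2 : ℝ) * ∑ e, h e l|

/-- `M` is the set of edges of a perfect matching of `K_{n,n}`. -/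
def IsPerfectMatching {n : ℕ} (M : Finset (Fin n × Fin n)) : Prop :=
  (∀ i, ∃! j, (i, j) ∈ M) ∧ ∀ j, ∃! i, (i, j) ∈ M

/-- the labelling -/
noncomputable def lab (m k : ℕ) (e : Fin (2 * m) × Fin (2 * m)) (l : Fin k) : ℝ :=
  if (e.1 : ℕ) = l then (if (e.2 : ℕ) < m then 1 else -1) else 0

lemma lab_norm (m k : ℕ) (e : Fin (2 * m) × Fin (2 * m)) : ∑ l, |lab m k e l| ≤ 1 := by
  have h1 : ∀ l : Fin k, |lab m k e l| = if (e.1 : ℕ) = l then 1 else 0 := by
    intro l
    unfold lab
    split_ifs <;> simp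
  simp only [h1]
  rw [Finset.sum_boole]
  norm_cast
  rw [Finset.card_le_one]
  intro a ha b hb
  rw [Finset.mem_filter] at ha hb
  exact Fin.ext (ha.2.symm.trans hb.2)

lemma lab_sum (m k : ℕ) (l : Fin k) : ∑ e, lab m k e l = 0 := by
  rw [Fintype.sum_prod_type]
  apply Finset.sum_eq_zero
  intro i _
  unfold lab
  by_cases h : (i : ℕ) = l
  · simp only [h, if_true]
    have h2 : ∑ j : Fin (2 * m), (if (j : ℕ) < m then (1 : ℝ) else -1) =
        ∑ j ∈ Finset.range (2 * m), (if j < m then (1 : ℝ) else -1) :=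
      (Finset.sum_range fun j : ℕ => if j < m then (1 : ℝ) else -1).symm
    rw [h2, two_mul, Finset.sum_range_add]
    have h3 : ∑ j ∈ Finset.range m, (if j < m then (1 : ℝ) else -1) = m := by
      rw [Finset.sum_congr rfl (g := fun _ => (1 : ℝ)) fun j hj => if_pos (Finset.mem_range.1 hj)]
      simp
    have h4 : ∑ j ∈ Finset.range m, (if m + j < m then (1 : ℝ) else -1) = -m := by
      rw [Finset.sum_congr rfl (g := fun _ => (-1 : ℝ)) fun j hj => if_neg (by omega)]
      simp
    rw [h3, h4]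
    ring
  · simp [h]

/-- For all `k` and all even `n = 2m ≥ k` there is a labelling such that all perfect matchings have error
`k`. -/
theorem strong (k m : ℕ) (hkm : k ≤ 2 * m) :
    (∀ e, ∑ l, |lab m k e l| ≤ 1) ∧
      ∀ M : Finset (Fin (2 * m) × Fin (2 * m)), IsPerfectMatching M → err (lab m k) M = k := by
  refine ⟨lab_norm m k, fun M hM => ?_⟩
  unfold err
  have h1 : ∀ l : Fin k, |∑ e ∈ M, lab m k e l -
      (M.card : ℝ) / (((2 * m : ℕ) : ℝ) ^ 2) * ∑ e, lab m k e l| = 1 := by
    intro l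
    rw [lab_sum, mul_zero, sub_zero]
    obtain ⟨j, hj, hj'⟩ := hM.1 ⟨l, lt_of_lt_of_le l.2 hkm⟩
    have h2 : ∑ e ∈ M, lab m k e l = lab m k (⟨l, lt_of_lt_of_le l.2 hkm⟩, j) l := by
      apply Finset.sum_eq_single_of_mem _ hj
      rintro ⟨a, b⟩ hab hne
      unfold lab
      rw [if_neg]
      intro h
      apply hne
      have ha : a = ⟨l, lt_of_lt_of_le l.2 hkm⟩ := Fin.ext h
      subst ha
      rw [hj' b hab]
    rw [h2]
    unfold lab
    rw [if_pos rfl]
    split_ifs <;> simp
  rw [Finset.sum_congr rfl fun l _ => h1 l]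
  simp

/-- The answer to the question is negative; more precisely the error of the best perfect matching can be
equal to `k`, for all `k ≥ 1` and all even `n ≥ k`. -/
theorem result :
    (∀ C : ℝ, ∃ n k : ℕ, 1 ≤ n ∧ 1 ≤ k ∧ ∃ h : Fin n × Fin n → Fin k → ℝ,
      (∀ e, ∑ l, |h e l| ≤ 1) ∧
      ∀ M : Finset (Fin n × Fin n), IsPerfectMatching M → C * Real.sqrt k < err h M) ∧
    ∀ n k : ℕ, Even n → 1 ≤ k → k ≤ n → ∃ h : Fin n × Fin n → Fin k → ℝ,
      (∀ e, ∑ l, |h e l| ≤ 1) ∧
      ∀ M : Finset (Fin n × Fin n), IsPerfectMatching M → err h M = k := by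
  have key : ∀ n k : ℕ, Even n → 1 ≤ k → k ≤ n → ∃ h : Fin n × Fin n → Fin k → ℝ,
      (∀ e, ∑ l, |h e l| ≤ 1) ∧
      ∀ M : Finset (Fin n × Fin n), IsPerfectMatching M → err h M = k := by
    intro n k hn _ hkn
    obtain ⟨m, rfl⟩ := hn
    rw [← two_mul] at hkn ⊢
    exact ⟨lab m k, strong k m hkn⟩
  refine ⟨fun C => ?_, key⟩
  obtain ⟨N, hN⟩ := exists_nat_gt (max C 1)
  have hC : C < N := (le_max_left _ _).trans_lt hN
  have h1 : (1 : ℝ) < N := (le_max_right _ _).trans_lt hN
  have hN1 : 1 ≤ N := by exact_mod_cast h1.le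
  have hN2 : 1 ≤ (2 * N) ^ 2 := Nat.one_le_pow _ _ (by omega)
  obtain ⟨h, h2, h3⟩ := key ((2 * N) ^ 2) ((2 * N) ^ 2) (by
    rw [sq]
    exact (even_two_mul N).mul_right _) hN2 le_rfl
  refine ⟨(2 * N) ^ 2, (2 * N) ^ 2, hN2, hN2, h, h2, fun M hM => ?_⟩
  rw [h3 M hM]
  push_cast
  rw [Real.sqrt_sq (by positivity)]
  nlinarith

end Pool.Agent.Results.MP_26893d_co.LinearError
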